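import Pool.Agent.W893.EV.Stm

set_option autoImplicit false

/-! Part ORD. helper308, for helper893. -/

namespace Pool.Agent.W308.EVORD

open Finset Pool.Agent.W893.EV

theorem mem_orb_self {n : ℕ} (G : Subgroup (Equiv.Perm (Fin n))) (A : Finset (Fin n)) :
    A ∈ orb G A := by
  refine ⟨1, G.one_mem, ?_⟩
  ext x
  rw [mem_map]
  constructor
  · intro h
    exact ⟨x, h, rfl⟩
  · rintro ⟨y, h, h2⟩
    rw [← h2]
    exact h

theorem ORD_proof : Pool.Agent.W893.EV.ORD := by
  classical
  intro n k G
  set S : Finset (Finset (Fin n)) := powersetCard k univ with hS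
  have hcard : #S = n.choose k := by
    rw [hS, card_powersetCard, card_univ, Fintype.card_fin]
  have horb : orbits G k = #(S.image (orb G)) := by
    unfold orbits
    rw [← Set.ncard_coe_finset]
    congr 1
    ext O
    simp only [Set.mem_ofPred_eq, coe_image, Set.mem_image, mem_coe, hS, mem_powersetCard,
      subset_univ, true_and]
    constructor
    · rintro ⟨A, h1, h2⟩
      exact ⟨A, h1, h2.symm⟩
    · rintro ⟨A, h1, h2⟩
      exact ⟨A, h1, h2.symm⟩
  rw [← hcard, horb]
  apply card_le_mul_card_image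
  intro a ha
  rw [mem_image] at ha
  obtain ⟨A0, hA0, rfl⟩ := ha
  have hsub : ({x ∈ S | orb G x = orb G A0} : Finset (Finset (Fin n))) ⊆
      (univ : Finset G).image (fun σ : G => A0.map (σ : Equiv.Perm (Fin n)).toEmbedding) := by
    intro A hA
    rw [mem_filter] at hA
    have h1 : A ∈ orb G A0 := by
      rw [← hA.2]
      exact mem_orb_self G A
    obtain ⟨σ, hσ, h2⟩ := h1
    rw [mem_image]
    exact ⟨⟨σ, hσ⟩, mem_univ _, h2.symm⟩
  refine (card_le_card hsub).trans (card_image_le.trans ?_)
  rw [card_univ, Nat.card_eq_fintype_card]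

end Pool.Agent.W308.EVORD
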