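import Pool.Agent.W894.HT.MLib

/-!
Project HT/HM, part ODD: odd values modulo `2 m` from the values modulo `m`.
-/

set_option autoImplicit false

namespace Pool.Agent.W308.HNOdd

open Pool.Agent.NPC Pool.Agent.NPC.Cnt Pool.Agent.W894.HT

theorem odd_mod (a m : ℕ) (hm : m % 2 = 1) (ha : a % 2 = 1) :
    (if (a % m) % 2 = 1 then a % m else a % m + m) = a % (2 * m) := by
  have hm0 : 0 < m := by omega
  have h1 : a % (2 * m) % m = a % m := Nat.mod_mod_of_dvd a (dvd_mul_left m 2)
  have h2 : a % (2 * m) % 2 = 1 := by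
    rw [Nat.mod_mod_of_dvd a (dvd_mul_right 2 m)]
    exact ha
  have h3 : a % (2 * m) < 2 * m := Nat.mod_lt _ (by omega)
  generalize a % (2 * m) = b at h1 h2 h3 ⊢
  rw [← h1]
  by_cases h4 : b < m
  · rw [Nat.mod_eq_of_lt h4, if_pos h2]
  · have h5 : b % m = b - m := by
      rw [Nat.mod_eq_sub_mod (by omega), Nat.mod_eq_of_lt (by omega)]
    rw [h5, if_neg (by omega)]
    omega

theorem main : S_ODD := by
  intro f m hm hf
  have h1 : Poly (fun x : List Bool => f x % m) := by
    have h2 : Poly (fun x : List Bool => (f x % m).bits) :=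
      Pool.Agent.NPC.W352HTCh3.polyV (y := fun x : List Bool => x) hf Poly.id
    exact (Poly.valBits h2).congr fun x => by rw [valB_bits]
  refine ⟨fun x => if (f x % m) % 2 = 1 then f x % m else f x % m + m, ?_,
    fun x hx => odd_mod (f x) m hm hx⟩
  apply Pool.Agent.NPC.H549Convex.fp_of_poly
  exact Poly.ite (Poly.decide_eq (Poly.mod h1 (Pool.Agent.NPC.Poly.const 2)) (Pool.Agent.NPC.Poly.const 1)) h1
    (Pool.Agent.NPC.Poly.add h1 (Pool.Agent.NPC.Poly.const m))

end Pool.Agent.W308.HNOdd
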