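import Mathlib
import Pool.Agent.W630.LT.Alg

/-!
LT-GS (MP_a67bd8_gt): Gram-Schmidt homotopy from `GL(3,ℝ)` to `SO(3)` loops (helper308).
-/

set_option autoImplicit false

open scoped ContDiff Matrix
open Set

namespace Pool.Agent.W308.LTGS

open Pool.Agent.W630.LT

/-- real matrix with given nine entries as functions -/
abbrev M3 : Type := Matrix (Fin 3) (Fin 3) ℝ

/-- squared length of the first column -/
def pp (r : M3) : ℝ := r 0 0 ^ 2 + r 1 0 ^ 2 + r 2 0 ^ 2

def n0 (r : M3) : ℝ := r 1 0 * r 2 1 - r 2 0 * r 1 1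
def n1 (r : M3) : ℝ := r 2 0 * r 0 1 - r 0 0 * r 2 1
def n2 (r : M3) : ℝ := r 0 0 * r 1 1 - r 1 0 * r 0 1

/-- squared length of the cross product of the first two columns -/
def qq (r : M3) : ℝ := n0 r ^ 2 + n1 r ^ 2 + n2 r ^ 2

def m0 (r : M3) : ℝ := n1 r * r 2 0 - n2 r * r 1 0
def m1 (r : M3) : ℝ := n2 r * r 0 0 - n0 r * r 2 0
def m2 (r : M3) : ℝ := n0 r * r 1 0 - n1 r * r 0 0

/-- the orthogonal matrix, `a = |r₀|⁻¹`, `b = |n|⁻¹` -/
def OO (a b : ℝ) (r : M3) : M3 :=
  !![a * r 0 0, a * b * m0 r, b * n0 r;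
     a * r 1 0, a * b * m1 r, b * n1 r;
     a * r 2 0, a * b * m2 r, b * n2 r]

theorem det_eq (r : M3) : r.det = n0 r * r 0 2 + n1 r * r 1 2 + n2 r * r 2 2 := by
  rw [Matrix.det_fin_three]
  unfold n0 n1 n2
  ring

theorem pp_pos {r : M3} (h : r.det ≠ 0) : 0 < pp r := by
  by_contra hc
  apply h
  have h0 : r 0 0 = 0 := by unfold pp at hc; nlinarith [sq_nonneg (r 0 0), sq_nonneg (r 1 0), sq_nonneg (r 2 0)]
  have h1 : r 1 0 = 0 := by unfold pp at hc; nlinarith [sq_nonneg (r 0 0), sq_nonneg (r 1 0), sq_nonneg (r 2 0)]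
  have h2 : r 2 0 = 0 := by unfold pp at hc; nlinarith [sq_nonneg (r 0 0), sq_nonneg (r 1 0), sq_nonneg (r 2 0)]
  rw [det_eq]
  unfold n0 n1 n2
  rw [h0, h1, h2]
  ring

theorem qq_pos {r : M3} (h : r.det ≠ 0) : 0 < qq r := by
  by_contra hc
  apply h
  have h0 : n0 r = 0 := by unfold qq at hc; nlinarith [sq_nonneg (n0 r), sq_nonneg (n1 r), sq_nonneg (n2 r)]
  have h1 : n1 r = 0 := by unfold qq at hc; nlinarith [sq_nonneg (n0 r), sq_nonneg (n1 r), sq_nonneg (n2 r)]
  have h2 : n2 r = 0 := by unfold qq at hc; nlinarith [sq_nonneg (n0 r), sq_nonneg (n1 r), sq_nonneg (n2 r)]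
  rw [det_eq, h0, h1, h2]
  ring

theorem n_dot (r : M3) : n0 r * r 0 0 + n1 r * r 1 0 + n2 r * r 2 0 = 0 := by
  unfold n0 n1 n2
  ring

theorem m_sq (r : M3) : m0 r ^ 2 + m1 r ^ 2 + m2 r ^ 2 = pp r * qq r := by
  unfold m0 m1 m2 pp qq
  linear_combination (-(n0 r * r 0 0 + n1 r * r 1 0 + n2 r * r 2 0)) * n_dot r

theorem OO_orth {a b : ℝ} {r : M3} (ha : a ^ 2 * pp r = 1) (hb : b ^ 2 * qq r = 1) :
    (OO a b r)ᵀ * OO a b r = 1 := by
  have hm := m_sq r
  have hn := n_dot r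
  ext i j
  fin_cases i <;> fin_cases j <;>
    simp [OO, Matrix.mul_apply, Fin.sum_univ_three, Matrix.transpose_apply]
  · unfold pp at ha; linear_combination ha
  · unfold m0 m1 m2; ring
  · linear_combination a * b * hn
  · unfold m0 m1 m2; ring
  · linear_combination (a ^ 2 * b ^ 2) * hm + b ^ 2 * qq r * ha + hb
  · unfold m0 m1 m2; ring
  · linear_combination a * b * hn
  · unfold m0 m1 m2; ring
  · unfold qq at hb; linear_combination hb

theorem OO_det {a b : ℝ} {r : M3} (ha : a ^ 2 * pp r = 1) (hb : b ^ 2 * qq r = 1) :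
    (OO a b r).det = 1 := by
  have hn := n_dot r
  rw [Matrix.det_fin_three]
  simp [OO]
  have : a * r 0 0 * (a * b * m1 r) * (b * n2 r) - a * r 0 0 * (b * n1 r) * (a * b * m2 r)
      - a * b * m0 r * (a * r 1 0) * (b * n2 r) + a * b * m0 r * (b * n1 r) * (a * r 2 0)
      + b * n0 r * (a * r 1 0) * (a * b * m2 r) - b * n0 r * (a * b * m1 r) * (a * r 2 0)
      = a ^ 2 * b ^ 2 * (pp r * qq r) := by
    unfold m0 m1 m2 pp qq
    linear_combination (-(a ^ 2 * b ^ 2 * (n0 r * r 0 0 + n1 r * r 1 0 + n2 r * r 2 0))) * hn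
  rw [this]
  linear_combination b ^ 2 * qq r * ha + hb

/-- `Oᵀ R` is upper triangular with positive diagonal -/
theorem seg_det {a b : ℝ} {r : M3} (ha0 : 0 < a) (hb0 : 0 < b) (ha : a ^ 2 * pp r = 1)
    (hb : b ^ 2 * qq r = 1) (hd : 0 < r.det) {t : ℝ} (ht0 : 0 ≤ t) (ht1 : t ≤ 1) :
    0 < (r + t • (OO a b r - r)).det := by
  have h1 := OO_orth ha hb
  have h2 := OO_det ha hb
  have h3 : ((OO a b r)ᵀ * (r + t • (OO a b r - r))).det = (r + t • (OO a b r - r)).det := by
    rw [Matrix.det_mul, Matrix.det_transpose, h2, one_mul]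
  rw [← h3]
  have h4 : (OO a b r)ᵀ * (r + t • (OO a b r - r)) =
      (1 - t) • ((OO a b r)ᵀ * r) + t • (1 : M3) := by
    rw [Matrix.mul_add, Matrix.mul_smul, Matrix.mul_sub, h1, smul_sub, sub_smul, one_smul]
    abel
  have hpos : 0 < pp r := by
    have := sq_nonneg a
    by_contra hc
    nlinarith
  have hqos : 0 < qq r := by
    have := sq_nonneg b
    by_contra hc
    nlinarith
  have e00 : ((OO a b r)ᵀ * r) 0 0 = a * pp r := by
    simp [OO, Matrix.mul_apply, Fin.sum_univ_three, Matrix.transpose_apply, pp]; ring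
  have e10 : ((OO a b r)ᵀ * r) 1 0 = 0 := by
    simp [OO, Matrix.mul_apply, Fin.sum_univ_three, Matrix.transpose_apply]
    unfold m0 m1 m2; ring
  have e11 : ((OO a b r)ᵀ * r) 1 1 = a * b * qq r := by
    simp [OO, Matrix.mul_apply, Fin.sum_univ_three, Matrix.transpose_apply]
    unfold m0 m1 m2 qq n0 n1 n2; ring
  have e20 : ((OO a b r)ᵀ * r) 2 0 = 0 := by
    simp [OO, Matrix.mul_apply, Fin.sum_univ_three, Matrix.transpose_apply]
    unfold n0 n1 n2; ring
  have e21 : ((OO a b r)ᵀ * r) 2 1 = 0 := by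
    simp [OO, Matrix.mul_apply, Fin.sum_univ_three, Matrix.transpose_apply]
    unfold n0 n1 n2; ring
  have e22 : ((OO a b r)ᵀ * r) 2 2 = b * r.det := by
    rw [det_eq]
    simp [OO, Matrix.mul_apply, Fin.sum_univ_three, Matrix.transpose_apply]
    ring
  rw [h4, Matrix.det_fin_three]
  simp only [Matrix.add_apply, Matrix.smul_apply, smul_eq_mul, e00, e10, e11, e20, e21, e22,
    Matrix.one_apply_eq]
  simp
  have c1 : 0 < (1 - t) * (a * pp r) + t := by
    rcases eq_or_lt_of_le ht0 with h | h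
    · rw [← h]; simp; positivity
    · have : 0 ≤ (1 - t) * (a * pp r) := mul_nonneg (by linarith) (by positivity)
      linarith
  have c2 : 0 < (1 - t) * (a * b * qq r) + t := by
    rcases eq_or_lt_of_le ht0 with h | h
    · rw [← h]; simp; positivity
    · have : 0 ≤ (1 - t) * (a * b * qq r) := mul_nonneg (by linarith) (by positivity)
      linarith
  have c3 : 0 < (1 - t) * (b * r.det) + t := by
    rcases eq_or_lt_of_le ht0 with h | h
    · rw [← h]; simp; positivity
    · have : 0 ≤ (1 - t) * (b * r.det) := mul_nonneg (by linarith) (by positivity)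
      linarith
  positivity

theorem toC_det {ι : Type} [Fintype ι] [DecidableEq ι] (A : Matrix ι ι ℝ) :
    (A.map Complex.ofReal).det = (A.det : ℂ) := by
  exact (RingHom.map_det Complex.ofRealHom A).symm

theorem lp_toC {ι : Type} [Fintype ι] [DecidableEq ι] {g : R3 → Matrix ι ι ℝ} (hg : LpR g) :
    Lp (toC g) := by
  refine ⟨?_, ?_, ?_⟩
  · intro i j
    exact Complex.ofRealCLM.contDiff.comp (hg.smooth i j)
  · intro k s
    unfold toC
    rw [hg.per k s]
  · intro s
    unfold toC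
    rw [toC_det]
    exact_mod_cast hg.inv s

theorem gs_pos (R : R3 → M3) (hR : LpR R) (hpos : ∀ s, 0 < (R s).det) :
    ∃ O : R3 → M3, LpR O ∧ (∀ s, (O s)ᵀ * O s = 1) ∧ (∀ s, (O s).det = 1) ∧
      W (toC R) = W (toC O) := by
  have hp : ∀ s, 0 < pp (R s) := fun s => pp_pos (hR.inv s)
  have hq : ∀ s, 0 < qq (R s) := fun s => qq_pos (hR.inv s)
  let a : R3 → ℝ := fun s => (√(pp (R s)))⁻¹
  let b : R3 → ℝ := fun s => (√(qq (R s)))⁻¹
  have ha0 : ∀ s, 0 < a s := fun s => inv_pos.2 (Real.sqrt_pos.2 (hp s))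
  have hb0 : ∀ s, 0 < b s := fun s => inv_pos.2 (Real.sqrt_pos.2 (hq s))
  have ha : ∀ s, a s ^ 2 * pp (R s) = 1 := by
    intro s
    simp only [a]
    rw [inv_pow, Real.sq_sqrt (hp s).le]
    exact inv_mul_cancel₀ (hp s).ne'
  have hb : ∀ s, b s ^ 2 * qq (R s) = 1 := by
    intro s
    simp only [b]
    rw [inv_pow, Real.sq_sqrt (hq s).le]
    exact inv_mul_cancel₀ (hq s).ne'
  have sR := hR.smooth
  have sn0 : ContDiff ℝ ∞ (fun s => n0 (R s)) :=
    ((sR 1 0).mul (sR 2 1)).sub ((sR 2 0).mul (sR 1 1))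
  have sn1 : ContDiff ℝ ∞ (fun s => n1 (R s)) :=
    ((sR 2 0).mul (sR 0 1)).sub ((sR 0 0).mul (sR 2 1))
  have sn2 : ContDiff ℝ ∞ (fun s => n2 (R s)) :=
    ((sR 0 0).mul (sR 1 1)).sub ((sR 1 0).mul (sR 0 1))
  have spp : ContDiff ℝ ∞ (fun s => pp (R s)) :=
    (((sR 0 0).pow 2).add ((sR 1 0).pow 2)).add ((sR 2 0).pow 2)
  have sqq : ContDiff ℝ ∞ (fun s => qq (R s)) := ((sn0.pow 2).add (sn1.pow 2)).add (sn2.pow 2)
  have sm0 : ContDiff ℝ ∞ (fun s => m0 (R s)) := (sn1.mul (sR 2 0)).sub (sn2.mul (sR 1 0))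
  have sm1 : ContDiff ℝ ∞ (fun s => m1 (R s)) := (sn2.mul (sR 0 0)).sub (sn0.mul (sR 2 0))
  have sm2 : ContDiff ℝ ∞ (fun s => m2 (R s)) := (sn0.mul (sR 1 0)).sub (sn1.mul (sR 0 0))
  have sa : ContDiff ℝ ∞ a :=
    (spp.sqrt (fun s => (hp s).ne')).inv (fun s => (Real.sqrt_pos.2 (hp s)).ne')
  have sb : ContDiff ℝ ∞ b :=
    (sqq.sqrt (fun s => (hq s).ne')).inv (fun s => (Real.sqrt_pos.2 (hq s)).ne')
  have hO : LpR (fun s => OO (a s) (b s) (R s)) := by
    refine ⟨?_, ?_, ?_⟩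
    · intro i j
      fin_cases i <;> fin_cases j
      · exact sa.mul (sR 0 0)
      · exact (sa.mul sb).mul sm0
      · exact sb.mul sn0
      · exact sa.mul (sR 1 0)
      · exact (sa.mul sb).mul sm1
      · exact sb.mul sn1
      · exact sa.mul (sR 2 0)
      · exact (sa.mul sb).mul sm2
      · exact sb.mul sn2
    · intro k s
      simp only [a, b]
      rw [hR.per k s]
    · intro s
      rw [OO_det (ha s) (hb s)]
      exact one_ne_zero
  refine ⟨fun s => OO (a s) (b s) (R s), hO, fun s => OO_orth (ha s) (hb s),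
    fun s => OO_det (ha s) (hb s), ?_⟩
  apply W_segment (lp_toC hR) (lp_toC hO)
  intro t ht s
  have h1 := seg_det (ha0 s) (hb0 s) (ha s) (hb s) (hpos s) ht.1 ht.2
  have h2 : toC R s + (t : ℂ) • (toC (fun s => OO (a s) (b s) (R s)) s - toC R s) =
      (R s + t • (OO (a s) (b s) (R s) - R s)).map Complex.ofReal := by
    ext i j
    simp [toC]
  rw [h2, toC_det]
  exact_mod_cast h1.ne'

/-- `diag(-1,1,1)` -/
def cc : M3 := !![-1, 0, 0; 0, 1, 0; 0, 0, 1]

theorem cc_det : cc.det = -1 := by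
  rw [Matrix.det_fin_three]
  simp [cc]

/-- the statement `S_GS` -/
theorem gs : S_GS := by
  intro R hR
  have hcont : Continuous (fun s => (R s).det) := by
    have : Continuous R := continuous_matrix (fun i j => (hR.smooth i j).continuous)
    exact this.matrix_det
  by_cases hneg : ∃ s, (R s).det < 0
  · have hall : ∀ s, (R s).det < 0 := by
      by_contra hc
      push Not at hc
      obtain ⟨s1, h1⟩ := hneg
      obtain ⟨s2, h2⟩ := hc
      obtain ⟨s, hs⟩ := mem_range_of_exists_le_of_exists_ge hcont ⟨s1, h1.le⟩ ⟨s2, h2⟩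
      exact hR.inv s hs
    have hR' : LpR (fun s => cc * R s) := by
      refine ⟨?_, ?_, ?_⟩
      · intro i j
        have : (fun s => (cc * R s) i j) = fun s => ∑ k, cc i k * R s k j := by
          funext s
          rw [Matrix.mul_apply]
        rw [this]
        exact ContDiff.sum fun k _ => contDiff_const.mul (hR.smooth k j)
      · intro k s
        simp only [hR.per k s]
      · intro s
        rw [Matrix.det_mul, cc_det]
        have := hR.inv s
        simpa using this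
    obtain ⟨O, h1, h2, h3, h4⟩ := gs_pos _ hR' (fun s => by
      rw [Matrix.det_mul, cc_det]
      linarith [hall s])
    refine ⟨O, h1, h2, h3, ?_⟩
    rw [← h4]
    have h5 : toC (fun s => cc * R s) = fun s => (cc.map Complex.ofReal) * toC R s := by
      funext s
      unfold toC
      exact Matrix.map_mul (f := Complex.ofRealHom)
    rw [h5]
    rw [W_const_mul (lp_toC hR).smooth (by rw [toC_det, cc_det]; norm_num)]
  · push Not at hneg
    exact gs_pos R hR (fun s => lt_of_le_of_ne (hneg s) (hR.inv s).symm)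

end Pool.Agent.W308.LTGS
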