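import Mathlib
import Pool.Agent.W376.RT.Stm

/-!
Unit cells of lattice points in `Fin h → ℝ` (helper308), for RT-A1 and RT-A2.
-/

set_option autoImplicit false

namespace Pool.Agent.W308.RTCell

open MeasureTheory Set Pool.Agent.W376.RT

/-- Euclidean norm on `Fin h → ℝ` -/
noncomputable def nr {h : ℕ} (z : Fin h → ℝ) : ℝ := ‖(WithLp.toLp 2 z : EuclideanSpace ℝ (Fin h))‖

theorem nr_sq {h : ℕ} (z : Fin h → ℝ) : nr z ^ 2 = ∑ i, z i ^ 2 := by
  unfold nr
  rw [EuclideanSpace.real_norm_sq_eq]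

theorem nr_nonneg {h : ℕ} (z : Fin h → ℝ) : 0 ≤ nr z := norm_nonneg _

theorem nr_add {h : ℕ} (y z : Fin h → ℝ) : nr (y + z) ≤ nr y + nr z := by
  unfold nr
  rw [WithLp.toLp_add]
  exact norm_add_le _ _

theorem nr_sub_comm {h : ℕ} (y z : Fin h → ℝ) : nr (y - z) = nr (z - y) := by
  unfold nr
  rw [WithLp.toLp_sub, WithLp.toLp_sub]
  exact norm_sub_rev _ _

theorem nr_neg {h : ℕ} (y : Fin h → ℝ) : nr (-y) = nr y := by
  unfold nr
  rw [WithLp.toLp_neg]
  exact norm_neg _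

theorem nr_le_iff {h : ℕ} (z : Fin h → ℝ) {r : ℝ} (hr : 0 ≤ r) : nr z ≤ r ↔ ∑ i, z i ^ 2 ≤ r ^ 2 := by
  rw [← nr_sq]
  constructor
  · intro hz
    exact pow_le_pow_left₀ (nr_nonneg z) hz 2
  · intro hz
    exact abs_le_of_sq_le_sq hz hr |> fun h => (abs_le.1 (by simpa using h)).2

/-- real vector of a lattice point -/
def rv {h : ℕ} (a : Fin h → ℤ) : Fin h → ℝ := fun i => (a i : ℝ)

theorem nr_rv_sq {h : ℕ} (a : Fin h → ℤ) : nr (rv a) ^ 2 = (ns a : ℝ) := by
  rw [nr_sq]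
  unfold ns rv
  push_cast
  rfl

/-- coordinatewise floor -/
noncomputable def fl {h : ℕ} (z : Fin h → ℝ) : Fin h → ℤ := fun i => ⌊z i⌋

theorem nr_fl {h : ℕ} (z : Fin h → ℝ) : nr (z - rv (fl z)) ≤ √(h : ℝ) := by
  rw [nr_le_iff _ (Real.sqrt_nonneg _), Real.sq_sqrt (Nat.cast_nonneg _)]
  calc ∑ i, (z - rv (fl z)) i ^ 2 ≤ ∑ _i : Fin h, (1 : ℝ) := by
        apply Finset.sum_le_sum
        intro i _
        have h1 : (z - rv (fl z)) i = Int.fract (z i) := rfl
        rw [h1]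
        have h2 := Int.fract_nonneg (z i)
        have h3 := (Int.fract_lt_one (z i)).le
        exact pow_le_one₀ h2 h3
    _ = h := by simp

theorem nr_le_fl {h : ℕ} (z : Fin h → ℝ) : nr z ≤ nr (rv (fl z)) + √(h : ℝ) := by
  have h1 : z = rv (fl z) + (z - rv (fl z)) := by abel
  calc nr z = nr (rv (fl z) + (z - rv (fl z))) := by rw [← h1]
    _ ≤ _ := (nr_add _ _).trans (by linarith [nr_fl z])

theorem fl_le_nr {h : ℕ} (z : Fin h → ℝ) : nr (rv (fl z)) ≤ nr z + √(h : ℝ) := by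
  have h1 : rv (fl z) = z + (rv (fl z) - z) := by abel
  calc nr (rv (fl z)) = nr (z + (rv (fl z) - z)) := by rw [← h1]
    _ ≤ nr z + nr (rv (fl z) - z) := nr_add _ _
    _ ≤ _ := by rw [nr_sub_comm]; linarith [nr_fl z]

/-- union of the unit cells of a set of lattice points -/
def cell {h : ℕ} (A : Set (Fin h → ℤ)) : Set (Fin h → ℝ) := {z | fl z ∈ A}

theorem measurable_fl {h : ℕ} : Measurable (fl : (Fin h → ℝ) → (Fin h → ℤ)) := by
  unfold fl
  fun_prop

theorem meas_cell {h : ℕ} (A : Set (Fin h → ℤ)) : MeasurableSet (cell A) :=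
  measurable_fl (Set.to_countable A).measurableSet

theorem cell_singleton {h : ℕ} (a : Fin h → ℤ) :
    cell {a} = Set.pi univ (fun i => Ico (a i : ℝ) (a i + 1)) := by
  ext z
  simp only [cell, mem_ofPred_eq, mem_singleton_iff, mem_pi, mem_univ, true_implies, mem_Ico]
  constructor
  · rintro rfl i
    exact ⟨Int.floor_le _, Int.lt_floor_add_one _⟩
  · intro hz
    funext i
    exact Int.floor_eq_iff.2 (hz i)

theorem vol_singleton {h : ℕ} (a : Fin h → ℤ) : volume (cell {a}) = 1 := by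
  rw [cell_singleton, volume_pi_pi]
  simp

theorem vol_cell {h : ℕ} {A : Set (Fin h → ℤ)} (hA : A.Finite) :
    volume (cell A) = (A.ncard : ENNReal) := by
  classical
  have h1 : cell A = ⋃ a ∈ hA.toFinset, cell {a} := by
    ext z
    simp [cell]
  rw [h1, measure_biUnion_finset]
  · rw [Finset.sum_congr rfl (fun a _ => vol_singleton a)]
    simp [ncard_eq_toFinset_card A hA]
  · intro a _ b _ hab
    rw [Function.onFun, Set.disjoint_left]
    intro z hz hz'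
    simp only [cell, mem_ofPred_eq, mem_singleton_iff] at hz hz'
    exact hab (hz.symm.trans hz')
  · intro a _
    exact meas_cell _

theorem ball_finite (h : ℕ) (R : ℝ) : {x : Fin h → ℤ | (ns x : ℝ) ≤ R ^ 2}.Finite := by
  apply (Set.finite_Icc (fun _ : Fin h => -⌈|R|⌉) (fun _ => ⌈|R|⌉)).subset
  intro x hx
  have hx' : (ns x : ℝ) ≤ R ^ 2 := hx
  have key : ∀ i, |(x i : ℝ)| ≤ |R| := by
    intro i
    apply sq_le_sq.1
    refine le_trans ?_ hx'
    unfold ns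
    push_cast
    exact Finset.single_le_sum (f := fun j => (x j : ℝ) ^ 2) (fun j _ => sq_nonneg _)
      (Finset.mem_univ i)
  rw [Set.mem_Icc]
  constructor
  · intro i
    have h1 := (abs_le.1 (key i)).1
    have h2 := Int.le_ceil |R|
    have h3 : (-(⌈|R|⌉ : ℤ) : ℝ) ≤ (x i : ℝ) := by linarith
    exact_mod_cast h3
  · intro i
    have h1 := (abs_le.1 (key i)).2
    have h2 := Int.le_ceil |R|
    have h3 : (x i : ℝ) ≤ ((⌈|R|⌉ : ℤ) : ℝ) := by linarith
    exact_mod_cast h3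

/-- Euclidean ball in `Fin h → ℝ` -/
def eb (h : ℕ) (r : ℝ) : Set (Fin h → ℝ) := {z | nr z ≤ r}

theorem meas_eb (h : ℕ) (r : ℝ) : MeasurableSet (eb h r) := by
  have h1 : Continuous (nr : (Fin h → ℝ) → ℝ) := by
    unfold nr
    exact (PiLp.continuous_toLp 2 _).norm
  exact (isClosed_le h1 continuous_const).measurableSet

theorem nr_rv_le_iff {h : ℕ} (a : Fin h → ℤ) {r : ℝ} (hr : 0 ≤ r) :
    nr (rv a) ≤ r ↔ (ns a : ℝ) ≤ r ^ 2 := by
  rw [nr_le_iff _ hr, ← nr_rv_sq, nr_sq]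

/-- balls are covered by the cells of a larger lattice ball -/
theorem vol_eb_le (h : ℕ) {r : ℝ} (hr : 0 ≤ r + √(h : ℝ)) :
    volume (eb h r) ≤ (cnt h (r + √(h : ℝ)) : ENNReal) := by
  have h1 : (cnt h (r + √(h : ℝ)) : ENNReal) =
      volume (cell {x : Fin h → ℤ | (ns x : ℝ) ≤ (r + √(h : ℝ)) ^ 2}) := by
    rw [vol_cell (ball_finite h _)]
    rfl
  rw [h1]
  apply measure_mono
  intro z hz
  show (ns (fl z) : ℝ) ≤ (r + √(h : ℝ)) ^ 2
  rw [← nr_rv_le_iff _ hr]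
  have h2 : nr z ≤ r := hz
  linarith [fl_le_nr z]

/-- the cells of a lattice ball lie in a larger ball -/
theorem cnt_le_vol (h : ℕ) {r : ℝ} (hr : 0 ≤ r) :
    (cnt h r : ENNReal) ≤ volume (eb h (r + √(h : ℝ))) := by
  have h1 : (cnt h r : ENNReal) = volume (cell {x : Fin h → ℤ | (ns x : ℝ) ≤ r ^ 2}) := by
    rw [vol_cell (ball_finite h _)]
    rfl
  rw [h1]
  apply measure_mono
  intro z hz
  have h3 : (ns (fl z) : ℝ) ≤ r ^ 2 := hz
  rw [← nr_rv_le_iff _ hr] at h3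
  show nr z ≤ _
  linarith [nr_le_fl z]

end Pool.Agent.W308.RTCell
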