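import Mathlib
import Pool.Agent.W308.RTCell
import Pool.Agent.Helper392.Mey.PL

/-!
RT-A1 (MP_b4ba96_co): Brunn-Minkowski step (helper308).
-/

set_option autoImplicit false

namespace Pool.Agent.W308.RTA1

open MeasureTheory Set Pool.Agent.W376.RT Pool.Agent.W308.RTCell

theorem main : Pool.Agent.W376.RT.S_BM := by
  intro h R σ A hR hσ hball hsum
  rcases A.eq_empty_or_nonempty with rfl | hne
  · simp
  have hs0 : 0 ≤ √(h : ℝ) := Real.sqrt_nonneg _
  have hfin : A.Finite := (ball_finite h R).subset (fun a ha => hball a ha)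
  set B : Set (Fin h → ℤ) := {b | -b ∈ A} with hB
  have hBA : B = (fun a => -a) '' A := by
    ext b
    simp only [hB, mem_ofPred_eq, mem_image]
    constructor
    · intro hb
      exact ⟨-b, hb, neg_neg b⟩
    · rintro ⟨a, ha, rfl⟩
      simpa using ha
  have hBfin : B.Finite := by
    rw [hBA]
    exact hfin.image _
  have hBcard : B.ncard = A.ncard := by
    rw [hBA]
    exact ncard_image_of_injective A neg_injective
  set ρ2 : ℝ := (R + √(h : ℝ)) ^ 2 - (σ - 2 * √(h : ℝ)) ^ 2 / 4 with hρ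
  have nrA : ∀ a ∈ A, nr (rv a) ≤ R := fun a ha => (nr_rv_le_iff a hR).2 (hball a ha)
  have key : ∀ u ∈ cell A, ∀ v ∈ cell B, (fun i => (u i + v i) / 2) ∈ eb h (√ρ2) := by
    intro u hu v hv
    have ha : fl u ∈ A := hu
    have hb : -fl v ∈ A := hv
    have e1 : nr u ≤ R + √(h : ℝ) := (nr_le_fl u).trans (by linarith [nrA _ ha])
    have e2 : nr v ≤ R + √(h : ℝ) := by
      refine (nr_le_fl v).trans ?_
      have h1 := nrA _ hb
      have h2 : rv (-fl v) = -rv (fl v) := by
        funext i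
        simp [rv]
      rw [h2, nr_neg] at h1
      linarith
    have e3 : σ - 2 * √(h : ℝ) ≤ nr (u - v) := by
      have h1 : σ ≤ nr (rv (fl u) - rv (fl v)) := by
        have h2 : rv (fl u) - rv (fl v) = rv (fl u + -fl v) := by
          funext i
          simp [rv, sub_eq_add_neg]
        rw [h2]
        have h3 := hsum _ ha _ hb
        rw [← nr_rv_sq] at h3
        exact (abs_le_of_sq_le_sq' h3 (nr_nonneg _)).2
      have h4 : rv (fl u) - rv (fl v) = (u - v) + ((rv (fl u) - u) + (v - rv (fl v))) := by abel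
      have h5 := nr_add (u - v) ((rv (fl u) - u) + (v - rv (fl v)))
      rw [← h4] at h5
      have h6 := nr_add (rv (fl u) - u) (v - rv (fl v))
      have h7 := nr_fl u
      rw [nr_sub_comm] at h7
      have h8 := nr_fl v
      linarith
    show nr _ ≤ _
    apply Real.le_sqrt_of_sq_le
    have p1 : nr (fun i => (u i + v i) / 2) ^ 2 = (nr u ^ 2 + nr v ^ 2) / 2 - nr (u - v) ^ 2 / 4 := by
      rw [nr_sq, nr_sq, nr_sq, nr_sq, ← Finset.sum_add_distrib, Finset.sum_div, Finset.sum_div,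
        ← Finset.sum_sub_distrib]
      apply Finset.sum_congr rfl
      intro i _
      simp only [Pi.sub_apply]
      ring
    rw [p1, hρ]
    have q1 : nr u ^ 2 ≤ (R + √(h : ℝ)) ^ 2 := pow_le_pow_left₀ (nr_nonneg _) e1 2
    have q2 : nr v ^ 2 ≤ (R + √(h : ℝ)) ^ 2 := pow_le_pow_left₀ (nr_nonneg _) e2 2
    have q3 : (σ - 2 * √(h : ℝ)) ^ 2 ≤ nr (u - v) ^ 2 := pow_le_pow_left₀ (by linarith) e3 2
    linarith
  have bm := Pool.Agent.Helper392.Mey.PL.bm_pi (meas_cell A) (meas_cell B) (meas_eb h (√ρ2)) key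
  rw [vol_cell hfin, vol_cell hBfin, hBcard] at bm
  have b2 := vol_eb_le h (r := √ρ2) (by positivity)
  have b3 : (A.ncard : ENNReal) * A.ncard ≤ (cnt h (√ρ2 + √(h : ℝ)) : ENNReal) ^ 2 :=
    bm.trans (pow_le_pow_left₀ (zero_le) b2 2)
  have b4 : A.ncard * A.ncard ≤ cnt h (√ρ2 + √(h : ℝ)) ^ 2 := by exact_mod_cast b3
  rw [← sq] at b4
  exact (Nat.pow_le_pow_iff_left (by norm_num)).1 b4

end Pool.Agent.W308.RTA1
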