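import Mathlib
import Pool.Agent.W308.RTCell

/-!
RT-A2 (MP_b4ba96_co): asymptotics of the number of lattice points in a ball (helper308).
-/

set_option autoImplicit false

namespace Pool.Agent.W308.RTA2

open MeasureTheory Set Filter Pool.Agent.W376.RT Pool.Agent.W308.RTCell
open scoped Pointwise

theorem eb_smul (h : ℕ) {r : ℝ} (hr : 0 < r) : eb h r = r • eb h 1 := by
  ext z
  rw [Set.mem_smul_set_iff_inv_smul_mem₀ hr.ne']
  show nr z ≤ r ↔ nr (r⁻¹ • z) ≤ 1
  have h1 : nr (r⁻¹ • z) = r⁻¹ * nr z := by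
    unfold nr
    rw [WithLp.toLp_smul, norm_smul, Real.norm_of_nonneg (by positivity)]
  rw [h1, inv_mul_le_iff₀ hr, mul_one]

theorem eb_finite (h : ℕ) : volume (eb h 1) ≠ ⊤ := by
  have hs0 : 0 ≤ √(h : ℝ) := Real.sqrt_nonneg _
  exact ne_top_of_le_ne_top (ENNReal.natCast_ne_top _) (vol_eb_le h (r := 1) (by positivity))

theorem eb_pos (h : ℕ) : 0 < volume (eb h 1) := by
  have h1 : Continuous (nr : (Fin h → ℝ) → ℝ) := by
    unfold nr
    exact (PiLp.continuous_toLp 2 _).norm
  have h2 : IsOpen {z : Fin h → ℝ | nr z < 1} := isOpen_lt h1 continuous_const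
  have h3 : ({z : Fin h → ℝ | nr z < 1}).Nonempty := by
    refine ⟨0, ?_⟩
    show nr 0 < 1
    unfold nr
    simp
  refine lt_of_lt_of_le (h2.measure_pos volume h3) (measure_mono ?_)
  intro z hz
  have hz' : nr z < 1 := hz
  exact hz'.le

theorem vol_eb (h : ℕ) {r : ℝ} (hr : 0 < r) :
    (volume (eb h r)).toReal = r ^ h * (volume (eb h 1)).toReal := by
  rw [eb_smul h hr, Measure.addHaar_smul, ENNReal.toReal_mul]
  simp only [Module.finrank_fintype_fun_eq_card, Fintype.card_fin]
  rw [ENNReal.toReal_ofReal (abs_nonneg _), abs_of_nonneg (by positivity)]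

theorem main : Pool.Agent.W376.RT.S_CNT := by
  intro h hh
  set V : ℝ := (volume (eb h 1)).toReal with hV
  have hVpos : 0 < V := ENNReal.toReal_pos (eb_pos h).ne' (eb_finite h)
  refine ⟨V, hVpos, ?_⟩
  intro c hc
  set s : ℝ := √(h : ℝ) with hs
  have hs0 : 0 ≤ s := Real.sqrt_nonneg _
  have hfin : ∀ r : ℝ, 0 < r → volume (eb h r) ≠ ⊤ := by
    intro r hr
    rw [eb_smul h hr, Measure.addHaar_smul]
    exact ENNReal.mul_ne_top ENNReal.ofReal_ne_top (eb_finite h)
  have lower : ∀ r : ℝ, s < r → (r - s) ^ h * V ≤ cnt h r := by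
    intro r hr
    have h1 := vol_eb_le h (r := r - s) (by rw [← hs]; linarith)
    rw [← hs, sub_add_cancel] at h1
    have h2 := ENNReal.toReal_mono (ENNReal.natCast_ne_top _) h1
    rw [vol_eb h (by linarith), ENNReal.toReal_natCast] at h2
    exact h2
  have upper : ∀ r : ℝ, s < r → (cnt h r : ℝ) ≤ (r + s) ^ h * V := by
    intro r hr
    have h1 := cnt_le_vol h (r := r) (by linarith)
    rw [← hs] at h1
    have h2 := ENNReal.toReal_mono (hfin (r + s) (by linarith)) h1
    rw [vol_eb h (by linarith), ENNReal.toReal_natCast] at h2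
    exact h2
  have t1 : Tendsto (fun R : ℕ => s / (R : ℝ)) atTop (nhds 0) :=
    tendsto_const_div_atTop_nhds_zero_nat s
  have tl : Tendsto (fun R : ℕ => (c - s / (R : ℝ)) ^ h * V) atTop (nhds (c ^ h * V)) := by
    have := ((tendsto_const_nhds (x := c)).sub t1).pow h |>.mul_const V
    simpa using this
  have tu : Tendsto (fun R : ℕ => (c + s / (R : ℝ)) ^ h * V) atTop (nhds (c ^ h * V)) := by
    have := ((tendsto_const_nhds (x := c)).add t1).pow h |>.mul_const V
    simpa using this
  have ev : ∀ᶠ R : ℕ in atTop, s < c * R ∧ 0 < (R : ℝ) := by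
    have h1 : Tendsto (fun R : ℕ => c * (R : ℝ)) atTop atTop :=
      tendsto_natCast_atTop_atTop.const_mul_atTop hc
    filter_upwards [h1.eventually_gt_atTop s, eventually_gt_atTop 0] with R h2 h3
    exact ⟨h2, by exact_mod_cast h3⟩
  refine tendsto_of_tendsto_of_tendsto_of_le_of_le' tl tu ?_ ?_
  · filter_upwards [ev] with R hR
    obtain ⟨h1, h2⟩ := hR
    rw [le_div_iff₀ (by positivity)]
    have h3 := lower _ h1
    have h4 : (c - s / (R : ℝ)) ^ h * V * (R : ℝ) ^ h = (c * R - s) ^ h * V := by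
      rw [mul_right_comm, ← mul_pow]
      congr 2
      field_simp
    rw [h4]
    exact h3
  · filter_upwards [ev] with R hR
    obtain ⟨h1, h2⟩ := hR
    rw [div_le_iff₀ (by positivity)]
    have h3 := upper _ h1
    have h4 : (c + s / (R : ℝ)) ^ h * V * (R : ℝ) ^ h = (c * R + s) ^ h * V := by
      rw [mul_right_comm, ← mul_pow]
      congr 2
      field_simp
    rw [h4]
    exact h3

end Pool.Agent.W308.RTA2
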